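import Pool.Agent.helper54.V3.SpecE

/-!
# P2 (MP_70a088_an), route FIN, LEMMA L: the limit field is affine, a polynomial or a trigonometric polynomial, of bounded degree
(architect helper60; part S = the passage from sequences to `Lim`/`LimA`: helper98)

Paper: /team-store/MP_70a088_GAP_helper52.md (GAP), MP_70a088_FIN_helper23.md section 2.3, 5.4, MP_70a088_LAURENT_helper75.md. This file is pure complex analysis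
of the limit and does not depend on the dynamics. File `Pool/Agent/<seat>/P2N/XX.lean`: `import Pool.Agent.helper60.P2N.SpecG` (and any PROVED row of V3, e.g.
`Pool.Agent.helper46.V3.FPH`; see Pool/Agent/helper54/V3/All.lean), `set_option autoImplicit false`, `namespace P2N`,
`open Complex Metric Set Filter Topology MeasureTheory`, `theorem XX (h : YY_stmt) ... : XX_stmt`. Any EARLIER statement of this file may be a hypothesis.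
Auxiliary lemmas are prefixed `XX_`. Many rows are variants of rows of V3 (same names without the first letter change are quoted): copy the proof and adapt it.
-/

set_option autoImplicit false

open Complex Metric Set Filter Topology MeasureTheory

noncomputable section

namespace P2N

/-- the energy density `|q| - Re (q |b|/b)`; nonnegative. -/
def En (b q : ℂ → ℂ) (x : ℂ) : ℝ := ‖q x‖ - (q x * (((‖b x‖ : ℝ) : ℂ) / b x)).re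

/-- `q = L_V b = V b' + 2 V' b`. -/
def qq (b V : ℂ → ℂ) (x : ℂ) : ℂ := V x * deriv b x + 2 * deriv V x * b x

/-- the poles: the images of the points `a i` under the phases `x ↦ c + A c * x`, `c ∈ Γ`. -/
def Pl (Γ : Set ℂ) (A : ℂ → ℂ) (L : ℕ) (a : Fin L → ℂ) : Set ℂ := {p | ∃ c ∈ Γ, ∃ i, p = c + A c * a i}

/-- the limit when the normaliser `N` is bounded: `Γ` = centres of the visible phases `x ↦ c + A c * x`, `a i` the base poles with residues `r i`, `b` the limit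
differential, `V` the limit field. The energy bounds hold off the obstacle discs, i.e. for `‖x‖ > R₀` (`Γ` finite), `|Im (x/t)| > Y₀` (`Γ = ℤ t`); they are
stated for all `R₁ ≥ R₀`, `Y₁ ≥ Y₀`, because only far out the density is integrable. -/
structure Lim (Γ : Set ℂ) (A : ℂ → ℂ) (L : ℕ) (a r : Fin L → ℂ) (b V : ℂ → ℂ) : Prop where
  zero : (0 : ℂ) ∈ Γ
  one : A 0 = 1
  sep : ∃ s > (0 : ℝ), ∀ c ∈ Γ, ∀ c' ∈ Γ, c ≠ c' →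
    s ≤ ‖c - c'‖ ∧ ∀ i j, s ≤ ‖(c + A c * a i) - (c' + A c' * a j)‖
  inj : Function.Injective a
  A1 : ∀ c ∈ Γ, ‖A c‖ = 1
  grp : ∀ c ∈ Γ, ∀ c' ∈ Γ, c + A c * c' ∈ Γ ∧ A (c + A c * c') = A c * A c'
  inv : ∀ c ∈ Γ, ∃ c' ∈ Γ, c + A c * c' = 0 ∧ A c * A c' = 1
  com : ∀ c ∈ Γ, ∀ c' ∈ Γ, c + A c * c' = c' + A c' * c
  Vd : Differentiable ℂ V
  VA : ∀ c ∈ Γ, ∀ x, V (c + A c * x) = A c * V x
  bd : DifferentiableOn ℂ b (Pl Γ A L a)ᶜ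
  bp : ∀ c ∈ Γ, ∀ i, ∃ h : ℂ → ℂ, AnalyticAt ℂ h (c + A c * a i) ∧
    ∀ᶠ x in 𝓝[≠] (c + A c * a i), b x = (r i / A c) / (x - (c + A c * a i)) + h x
  b2 : ∀ x ∉ Pl Γ A L a,
    iteratedDeriv 2 b x = ∑' c : Γ, ∑ i, 2 * (r i / A (c : ℂ)) / (x - ((c : ℂ) + A (c : ℂ) * a i)) ^ 3
  bA : ∀ c ∈ Γ, ∀ x ∉ Pl Γ A L a, A c ^ 2 * b (c + A c * x) = b x
  nz : ∃ x ∉ Pl Γ A L a, b x ≠ 0
  eF : Γ.Finite → ∃ C R₀ : ℝ, ∀ R₁ ≥ R₀, ∀ R > R₁, ∫ x in {x : ℂ | R₁ < ‖x‖ ∧ ‖x‖ < R}, En b (qq b V) x ≤ C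
  eZ : ∀ t : ℂ, t ≠ 0 → Γ = V3.ZL t → ∃ C Y₀ : ℝ, ∀ Y₁ ≥ Y₀, ∀ Y > Y₁, ∀ ε ∈ Ioo (0 : ℝ) (1 / 2),
    ∫ z in {z : ℂ | ε < z.re ∧ z.re < 1 - ε ∧ Y₁ < |z.im| ∧ |z.im| < Y}, En b (qq b V) (t * z) ≤ C

/-- the limit when the normaliser `N` is unbounded (or `b` is affine): energy zero on some open set. -/
structure LimA (b V : ℂ → ℂ) : Prop where
  Vd : Differentiable ℂ V
  bf : ∃ α β : ℂ, (α ≠ 0 ∨ β ≠ 0) ∧ ∀ x, b x = α + β * x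
  en : ∃ U : Set ℂ, IsOpen U ∧ U.Nonempty ∧ ∀ x ∈ U, En b (qq b V) x = 0

/-! ## The group -/

/-- GRO: a phase with `A c ≠ 1` makes `Γ` finite.
PROOF. `c' ∈ Γ`: `com` gives `c' (A c - 1) = c (A c' - 1)`, so `‖c'‖ ≤ 2 ‖c‖/‖A c - 1‖` by `A1`. `V3.GSF` (Pool.Agent.*.V3.GSF, proved) with `sep`. Copy of V3.GRO. -/
def GRO_stmt : Prop := ∀ (Γ : Set ℂ) (A : ℂ → ℂ) (L : ℕ) (a r : Fin L → ℂ) (b V : ℂ → ℂ),
  Lim Γ A L a r b V → (∃ c ∈ Γ, A c ≠ 1) → Γ.Finite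

/-- GTR: trichotomy.
PROOF. If some `A c ≠ 1`: GRO. If all `A c = 1`: `Γ` is closed under addition (`grp`) and negation (`inv`), separated: `V3.GLA`. `{0}` is finite. In the third case of GLA `V` has
the periods `t₁, t₂` (`VA`), so it is constant (`V3.GEL`). Copy of V3.GTR. -/
def GTR_stmt : Prop := ∀ (Γ : Set ℂ) (A : ℂ → ℂ) (L : ℕ) (a r : Fin L → ℂ) (b V : ℂ → ℂ),
  Lim Γ A L a r b V →
  Γ.Finite ∨ (∃ t : ℂ, t ≠ 0 ∧ Γ = V3.ZL t ∧ ∀ c ∈ Γ, A c = 1) ∨ (∀ x y, V x = V y)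

/-- PSP: the poles are separated.
PROOF. `p = c + A c * a i`, `p' = c' + A c' * a j`. `c ≠ c'`: `sep`. `c = c'`: `i ≠ j`, `‖p - p'‖ = ‖a i - a j‖ ≥` the minimum over the finitely many pairs `i ≠ j` (positive by `inj`). -/
def PSP_stmt : Prop := ∀ (Γ : Set ℂ) (A : ℂ → ℂ) (L : ℕ) (a r : Fin L → ℂ) (b V : ℂ → ℂ),
  Lim Γ A L a r b V → ∃ s > (0 : ℝ), ∀ p ∈ Pl Γ A L a, ∀ p' ∈ Pl Γ A L a, p ≠ p' → s ≤ ‖p - p'‖

/-! ## General one variable facts -/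

/-- EPG: entire functions of polynomial growth.
PROOF. Cauchy estimates (`Complex.norm_iteratedDeriv_le_of_forall_mem_sphere_norm_le`) for the derivatives of order `> n` at `0`, `R → ∞`; Taylor series of an entire function
(`Complex.hasSum_taylorSeries_of_entire`). Many seats have this lemma: `grep -rn 'natDegree' Pool/Agent/*/` for 'growth'. -/
def EPG_stmt : Prop := ∀ (V : ℂ → ℂ) (n : ℕ) (C : ℝ), Differentiable ℂ V → (∀ x, ‖V x‖ ≤ C * (1 + ‖x‖) ^ n) →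
  ∃ P : Polynomial ℂ, P.natDegree ≤ n ∧ ∀ x, V x = P.eval x

/-- FCO: Taylor coefficients by circle integrals.
PROOF. `c n = (2πi)⁻¹ ∮ h(z)/z^{n+1} dz` (independent of the radius: Cauchy power series, `DifferentiableOn.hasFPowerSeriesOnBall`, or `circleIntegral` of `h(z) z^{-n-1}` on annuli). If `c n = 0` for `n > n₀` the
power series of `h` is a polynomial. -/
def FCO_stmt : Prop := ∀ h : ℂ → ℂ, Differentiable ℂ h → ∃ c : ℕ → ℂ,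
  (∀ (n : ℕ) (r : ℝ), 0 < r → ∫ φ in (0 : ℝ)..(2 * Real.pi), h (r * exp (φ * I)) * exp (-(n * φ * I)) = 2 * Real.pi * c n * r ^ n) ∧
  (∀ n₀ : ℕ, (∀ n, n₀ < n → c n = 0) → ∃ P : Polynomial ℂ, P.natDegree ≤ n₀ ∧ ∀ x, h x = P.eval x)

/-- FPH: the phase of a polynomial near infinity.
PROOF. `M(x) = ℓ x^m (1 + O(1/|x|))`, `x = r e^{iφ}`, `c₀ = |ℓ|/ℓ`; `| |1+w|/(1+w) - 1 | ≤ 4 |w|` for `|w| ≤ 1/2`. Variant of V3.FPH (helper46). -/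
def FPH_stmt : Prop := ∀ M : Polynomial ℂ, M ≠ 0 → ∃ (c₀ : ℂ) (K R₀ : ℝ), ‖c₀‖ = 1 ∧ 1 ≤ R₀ ∧ 0 ≤ K ∧
  (∀ x : ℂ, R₀ ≤ ‖x‖ → M.eval x ≠ 0) ∧
  ∀ r φ : ℝ, R₀ ≤ r → ‖((‖M.eval (r * exp (φ * I))‖ : ℝ) : ℂ) / M.eval (r * exp (φ * I)) - c₀ * exp (-(M.natDegree * φ * I))‖ ≤ K / r

/-- FOD: linear differential equations with polynomial coefficients, regular singular at infinity.
PROOF. For `|x| ≥ R₁ ≥ 1` (all roots of `U₁` inside): `|U₂/U₁| ≤ C/|x|`, `|P/U₁| ≤ C |x|^k`. `Y(s) = V(e^{s+iφ})` satisfies `|Y'| ≤ C |Y| + C e^{(k+1)s}` for `s ≥ s₁ = log R₁`; on `[s₁,S]` Gronwall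
(`norm_le_gronwallBound_of_norm_deriv_right_le`, `C ≥ 1`) gives `|Y(S)| ≤ (M₀ + e^{(k+1)S}) e^{C(S-s₁)}`, `M₀ = max_{|x|=R₁} |V|`: polynomial growth: EPG. -/
def FOD_stmt : Prop := ∀ (V : ℂ → ℂ) (U₁ U₂ P : Polynomial ℂ), Differentiable ℂ V → U₁ ≠ 0 → U₂.degree < U₁.degree →
  (∀ x, U₁.eval x * deriv V x + U₂.eval x * V x = P.eval x) → ∃ W : Polynomial ℂ, ∀ x, V x = W.eval x

/-- FDG: the degree of a polynomial solution.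
PROOF. Let `k = natDegree W ≥ 2` (otherwise done), `w, n, q` the leading coefficients of `W, N, Q`. The coefficient of `X^{k + dN + dQ - 1}` of the left side is `w n q (2k + dN - dQ)`. If it is not `0` then
`k + dN + dQ - 1 ≤ natDegree H ≤ max (2 dQ - 1) (dN + dQ)`, so `k ≤ 1` or `k ≤ dQ - dN`. If `2k + dN = dQ` then `k ≤ dQ`. -/
def FDG_stmt : Prop := ∀ (N Q W H : Polynomial ℂ), N ≠ 0 → Q ≠ 0 → W ≠ 0 →
  H.natDegree ≤ max (2 * Q.natDegree - 1) (N.natDegree + Q.natDegree) →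
  2 * (N * Q) * W.derivative + (N.derivative * Q - N * Q.derivative) * W = H →
  W.natDegree ≤ max 1 Q.natDegree

/-- LAF: the affine case.
PROOF. On a ball in `U` without the zero of `b`: `q |b|/b` has real part `|q|`, so `q/b = |q|/|b|` is real; a holomorphic real valued function on a ball is constant (open mapping, or
`AnalyticOnNhd.eq_on..`/Cauchy-Riemann): `q = κ b` on the ball, hence everywhere (`q = β V + 2 V' (α + β x)` is entire): `β V + 2 V' (α + β x) = κ (α + β x)`. `β = 0`: `V' = κ/2`. `β ≠ 0`: `y = x + α/β`, `W = V - κ y/3`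
satisfies `W + 2 y W' = 0`, so `(y W²)' = 0`, `y W² = 0`, `W = 0`. -/
def LAF_stmt : Prop := ∀ (b V : ℂ → ℂ), LimA b V → ∃ α β : ℂ, ∀ x, V x = α + β * x

/-! ## Case (F): `Γ` finite -/

/-- FSU: the formula for `b`.
PROOF. `f x = b x - ∑ ∑ (r i/A c)/(x - p)` satisfies `V3.REMO` (`bp`; the other summands are analytic at `p`, PSP); its extension has second derivative `0` off `Pl` by `b2` (`tsum` over a finite type);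
`V3.AFF2`. Copy of V3.FSUM. -/
def FSU_stmt : Prop := ∀ (Γ : Set ℂ) (A : ℂ → ℂ) (L : ℕ) (a r : Fin L → ℂ) (b V : ℂ → ℂ) (Γf : Finset ℂ),
  Lim Γ A L a r b V → Γ = ↑Γf → ∃ α β : ℂ, ∀ x ∉ Pl Γ A L a,
    b x = ∑ c ∈ Γf, ∑ i, (r i / A c) / (x - (c + A c * a i)) + α + β * x

/-- FRA: `b` is rational.
PROOF. FSU; `Q = ∏_c ∏_i (X - C (c + A c * a i))`, `N = Q * (...)` written out; `N ≠ 0` by `nz`. -/
def FRA_stmt : Prop := ∀ (Γ : Set ℂ) (A : ℂ → ℂ) (L : ℕ) (a r : Fin L → ℂ) (b V : ℂ → ℂ) (Γf : Finset ℂ),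
  Lim Γ A L a r b V → Γ = ↑Γf → ∃ N Q : Polynomial ℂ, N ≠ 0 ∧ Q.Monic ∧ Q.natDegree = L * Γf.card ∧
    (∀ x, x ∈ Pl Γ A L a ↔ Q.eval x = 0) ∧ ∀ x ∉ Pl Γ A L a, b x = N.eval x / Q.eval x

/-- FEQ: the energy density in terms of `h = Q² q = V (N' Q - N Q') + 2 V' N Q`.
PROOF. `x` is in the open set `{Q ≠ 0}`, where `b = N/Q`, `b' = (N' Q - N Q')/Q²`. `|b|/b = (|N|/N)(Q/|Q|)`, so `q |b|/b = h/Q² (|N|/N)(Q/|Q|) = |Q|⁻² h |NQ|/(NQ)` (also if `N x = 0`: both sides are `|q|`). -/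
def FEQ_stmt : Prop := ∀ (b V : ℂ → ℂ) (N Q : Polynomial ℂ) (x : ℂ), (∀ᶠ y in 𝓝 x, b y = N.eval y / Q.eval y) → Q.eval x ≠ 0 →
  En b (qq b V) x = (‖Q.eval x‖ ^ 2)⁻¹ *
    (‖V x * (N.derivative * Q - N * Q.derivative).eval x + 2 * deriv V x * (N * Q).eval x‖ -
      ((V x * (N.derivative * Q - N * Q.derivative).eval x + 2 * deriv V x * (N * Q).eval x) *
        (((‖(N * Q).eval x‖ : ℝ) : ℂ) / (N * Q).eval x)).re)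

/-- FLO: circles from below.
PROOF. `M = N Q`-phase: `∫ Re (h |M|/M) ≤ |∫ h c₀ e^{-imφ}| + (K/r) ∫ |h|`; `|∫ h e^{-imφ}| = 2π |c_m| r^m`, `∫ |h| ≥ |∫ h e^{-inφ}| = 2π |c_n| r^n`. (`h` continuous; `φ ↦ |M|/M` is continuous for `r ≥ R₀`.)
So `∫ (|h| - Re (h |M|/M)) dφ ≥ (1 - K/r) 2π |c_n| r^n - 2π |c_m| r^m`. -/
def FLO_stmt : Prop := ∀ (h : ℂ → ℂ) (M : Polynomial ℂ) (c : ℕ → ℂ) (c₀ : ℂ) (K R₀ r : ℝ) (n : ℕ), Differentiable ℂ h →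
  (∀ (n : ℕ) (r : ℝ), 0 < r → ∫ φ in (0 : ℝ)..(2 * Real.pi), h (r * exp (φ * I)) * exp (-(n * φ * I)) = 2 * Real.pi * c n * r ^ n) →
  ‖c₀‖ = 1 → 1 ≤ R₀ → 0 ≤ K → (∀ x : ℂ, R₀ ≤ ‖x‖ → M.eval x ≠ 0) →
  (∀ r φ : ℝ, R₀ ≤ r → ‖((‖M.eval (r * exp (φ * I))‖ : ℝ) : ℂ) / M.eval (r * exp (φ * I)) - c₀ * exp (-(M.natDegree * φ * I))‖ ≤ K / r) →
  R₀ ≤ r → K < r →
  (1 - K / r) * (2 * Real.pi * ‖c n‖ * r ^ n) - 2 * Real.pi * ‖c M.natDegree‖ * r ^ M.natDegree ≤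
    ∫ φ in (0 : ℝ)..(2 * Real.pi), (‖h (r * exp (φ * I))‖ -
      (h (r * exp (φ * I)) * (((‖M.eval (r * exp (φ * I))‖ : ℝ) : ℂ) / M.eval (r * exp (φ * I)))).re)

/-- FQP: `h = Q² q` is a polynomial.
PROOF. `h` entire (formula). FPH for `M = N Q`, FCO, FLO, FEQ. Suppose `c n ≠ 0` for some `n > max (2 dQ - 1) (dN + dQ)`, so `n ≥ 2 dQ` and `n > m = dN + dQ`. For `r` large `|Q|² ≤ 4 r^{2 dQ}` on `|x| = r`, so
`∫ En (r e^{iφ}) dφ ≥ (1/4) r^{-2dQ} ((1-K/r) 2π |c n| r^n - 2π |c m| r^m) ≥ κ := |c n|` (the integrand of FLO is nonnegative pointwise). `V3.FPL` for the function `f = En` on `{‖x‖ > R₁}`, `0` elsewhere (measurable, bounded on balls: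
continuous on `{‖x‖ ≥ R₁}`), and `∫_{ball 0 R} f = ∫_{R₁<‖x‖<R} En ≤ C` (`eF`, `R₁ ≥ R₀`): contradiction for `R → ∞`. So `c n = 0` for all these `n`: FCO. -/
def FQP_stmt : Prop := ∀ (Γ : Set ℂ) (A : ℂ → ℂ) (L : ℕ) (a r : Fin L → ℂ) (b V : ℂ → ℂ) (N Q : Polynomial ℂ),
  Lim Γ A L a r b V → Γ.Finite → N ≠ 0 → Q.Monic → (∀ x, x ∈ Pl Γ A L a ↔ Q.eval x = 0) →
  (∀ x ∉ Pl Γ A L a, b x = N.eval x / Q.eval x) →
  ∃ H : Polynomial ℂ, H.natDegree ≤ max (2 * Q.natDegree - 1) (N.natDegree + Q.natDegree) ∧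
    ∀ x, V x * (N.derivative * Q - N * Q.derivative).eval x + 2 * deriv V x * (N * Q).eval x = H.eval x

/-- FEN: end of case (F).
PROOF. FRA, FQP, FOD (`U₁ = 2 N Q`, `U₂ = N' Q - N Q'` has smaller degree, also if `dN + dQ = 0`), FDG (`W = 0` is trivial; polynomial identity from the identity of functions, `Polynomial.funext`). -/
def FEN_stmt : Prop := ∀ (Γ : Set ℂ) (A : ℂ → ℂ) (L : ℕ) (a r : Fin L → ℂ) (b V : ℂ → ℂ),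
  Lim Γ A L a r b V → Γ.Finite → ∃ P : Polynomial ℂ, P.natDegree ≤ max 1 (L * Γ.ncard) ∧ ∀ x, V x = P.eval x

/-! ## Case (Z): `Γ = ℤ t`, all `A c = 1`. Notation `u = exp (2πi x/t)`. -/

/-- ZPE: periodicity.
PROOF. `VA`, `bA` with `c = t`, `A t = 1`; `x ∈ Pl ↔ x + t ∈ Pl`. -/
def ZPE_stmt : Prop := ∀ (Γ : Set ℂ) (A : ℂ → ℂ) (L : ℕ) (a r : Fin L → ℂ) (b V : ℂ → ℂ) (t : ℂ),
  Lim Γ A L a r b V → t ≠ 0 → Γ = V3.ZL t → (∀ c ∈ Γ, A c = 1) →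
  (∀ x, V (x + t) = V x) ∧ (∀ x, x ∈ Pl Γ A L a ↔ x + t ∈ Pl Γ A L a) ∧ (∀ x ∉ Pl Γ A L a, b (x + t) = b x) ∧
  (∀ x, x ∈ Pl Γ A L a ↔ ∃ i, exp (2 * Real.pi * I * x / t) = exp (2 * Real.pi * I * a i / t)) ∧
  (∀ i j, exp (2 * Real.pi * I * a i / t) = exp (2 * Real.pi * I * a j / t) → i = j)

/-- ZDE: `b''` tends to `0` away from the poles.
PROOF. As V3.PDE: for `|Im (x/t)| = Y ≥ Y₁ := 1 + 2 max_i |Im (a i/t)|` the distance of `x` from `n t + a i` is `≥ |t| max (Y/2, |Re (x/t) - Re (a i/t) - n|)`, sum over `n`, `i`. -/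
def ZDE_stmt : Prop := ∀ (Γ : Set ℂ) (A : ℂ → ℂ) (L : ℕ) (a r : Fin L → ℂ) (b V : ℂ → ℂ) (t : ℂ),
  Lim Γ A L a r b V → t ≠ 0 → Γ = V3.ZL t → (∀ c ∈ Γ, A c = 1) →
  ∃ K Y₁ : ℝ, 0 < Y₁ ∧ ∀ x : ℂ, Y₁ ≤ |(x / t).im| → ‖iteratedDeriv 2 b x‖ ≤ K / |(x / t).im|

/-- ZRO: the model with one simple pole `(2πi/t)/(exp (2πi(x-a)/t) - 1)`.
PROOF. `V3.PR0` (helper24) for `g₀ = 1` minus the one for `g₀ = 0`, translated by `a`. -/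
def ZRO_stmt : Prop := ∀ (t a : ℂ), t ≠ 0 → ∃ R₀ : ℂ → ℂ,
  (∀ x, R₀ x = (2 * Real.pi * I / t) / (exp (2 * Real.pi * I * (x - a) / t) - 1)) ∧
  DifferentiableOn ℂ R₀ {x | x - a ∈ V3.ZL t}ᶜ ∧
  (∀ p, p - a ∈ V3.ZL t → ∃ h : ℂ → ℂ, AnalyticAt ℂ h p ∧ ∀ᶠ x in 𝓝[≠] p, R₀ x = 1 / (x - p) + h x) ∧
  (∃ K Y₁ : ℝ, 0 < Y₁ ∧ ∀ x : ℂ, Y₁ ≤ |(x / t).im| → ‖iteratedDeriv 2 R₀ x‖ ≤ K / |(x / t).im|)

/-- ZRA: `b` is rational in `u`.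
PROOF. As V3.PRAT (helper43): `f = b - ∑_i r i R_{a i}` extends to a periodic entire function `k` (`V3.REMO`, PSP), `k''` is bounded by `K'/|Im (x/t)|` far out, periodic, so bounded, constant, `0`; `V3.AFF2`, periodic: `k = α`.
`(2πi/t)/(u/u_i - 1) = (2πi/t) u_i/(u - u_i)`, `u_i = exp (2πi a i/t) ≠ 0` distinct (ZPE): `Q = ∏_i (X - C u_i)`, `N = C α * Q + ∑_i C (r i (2πi/t) u_i) ∏_{j ≠ i} (X - C u_j)`; `N ≠ 0` by `nz`. -/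
def ZRA_stmt : Prop := ∀ (Γ : Set ℂ) (A : ℂ → ℂ) (L : ℕ) (a r : Fin L → ℂ) (b V : ℂ → ℂ) (t : ℂ),
  Lim Γ A L a r b V → t ≠ 0 → Γ = V3.ZL t → (∀ c ∈ Γ, A c = 1) →
  ∃ N Q : Polynomial ℂ, N ≠ 0 ∧ N.natDegree ≤ L ∧ Q.natDegree = L ∧ Q.Monic ∧ Q.eval 0 ≠ 0 ∧
    (∀ x, x ∈ Pl Γ A L a ↔ Q.eval (exp (2 * Real.pi * I * x / t)) = 0) ∧
    ∀ x ∉ Pl Γ A L a, b x = N.eval (exp (2 * Real.pi * I * x / t)) / Q.eval (exp (2 * Real.pi * I * x / t))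

/-- ZEQ: the energy density in terms of `h = Q(u)² q = (2πi/t) V u (N' Q - N Q')(u) + 2 V' (N Q)(u)`.
PROOF. `(N(u)/Q(u))' = (2πi/t) u (N' Q - N Q')(u)/Q(u)²`; then as FEQ. -/
def ZEQ_stmt : Prop := ∀ (b V : ℂ → ℂ) (N Q : Polynomial ℂ) (t x u : ℂ), t ≠ 0 → u = exp (2 * Real.pi * I * x / t) →
  (∀ᶠ y in 𝓝 x, b y = N.eval (exp (2 * Real.pi * I * y / t)) / Q.eval (exp (2 * Real.pi * I * y / t))) → Q.eval u ≠ 0 →
  En b (qq b V) x = (‖Q.eval u‖ ^ 2)⁻¹ *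
    (‖2 * Real.pi * I / t * V x * (Polynomial.X * (N.derivative * Q - N * Q.derivative)).eval u + 2 * deriv V x * (N * Q).eval u‖ -
      ((2 * Real.pi * I / t * V x * (Polynomial.X * (N.derivative * Q - N * Q.derivative)).eval u + 2 * deriv V x * (N * Q).eval u) *
        (((‖(N * Q).eval u‖ : ℝ) : ℂ) / (N * Q).eval u)).re)

/-- ZPH: the phases of a polynomial in `u` at the two ends; `u = exp (2πi (s + iη))`.
PROOF. `M(u) = ℓ₀ u^{k₀} (1 + O(|u|))` for `u → 0` (`k₀ = natTrailingDegree`), `M(u) = ℓ u^m (1 + O(1/|u|))` for `u → ∞`, `|u| = exp (-2πη)`. As V3.PPH. -/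
def ZPH_stmt : Prop := ∀ M : Polynomial ℂ, M ≠ 0 → ∃ (c₁ c₂ : ℂ) (K Y₀ : ℝ), ‖c₁‖ = 1 ∧ ‖c₂‖ = 1 ∧ 0 ≤ K ∧ 0 < Y₀ ∧
  (∀ s η : ℝ, Y₀ ≤ |η| → M.eval (exp (2 * Real.pi * I * (s + η * I))) ≠ 0) ∧
  (∀ s η : ℝ, Y₀ ≤ η → ‖((‖M.eval (exp (2 * Real.pi * I * (s + η * I)))‖ : ℝ) : ℂ) / M.eval (exp (2 * Real.pi * I * (s + η * I))) -
    c₁ * exp (-(2 * Real.pi * I * (M.natTrailingDegree : ℂ) * s))‖ ≤ K * Real.exp (-(2 * Real.pi * η))) ∧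
  (∀ s η : ℝ, η ≤ -Y₀ → ‖((‖M.eval (exp (2 * Real.pi * I * (s + η * I)))‖ : ℝ) : ℂ) / M.eval (exp (2 * Real.pi * I * (s + η * I))) -
    c₂ * exp (-(2 * Real.pi * I * (M.natDegree : ℂ) * s))‖ ≤ K * Real.exp (2 * Real.pi * η))

/-- ZTR: periodic entire functions with finitely many Fourier coefficients.
PROOF. `V3.PFO` for `h` (coefficients `c`) and for `h - ∑_{n ∈ Icc n₀ n₁} c n exp (2πi n x/t)`, whose coefficients are all `0` (`∫_0^1 e^{2πiks} ds = δ_{k0}`; coefficients are determined by the integral at `η = 0`). -/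
def ZTR_stmt : Prop := ∀ (h : ℂ → ℂ) (t : ℂ), Differentiable ℂ h → t ≠ 0 → (∀ x, h (x + t) = h x) →
  ∃ c : ℤ → ℂ, (∀ (n : ℤ) (η : ℝ), ∫ s in (0 : ℝ)..1, h (t * (s + η * I)) * exp (-(2 * Real.pi * I * n * s)) =
    c n * Real.exp (-(2 * Real.pi * n * η))) ∧
  ∀ n₀ n₁ : ℤ, (∀ n, n < n₀ ∨ n₁ < n → c n = 0) → ∀ x, h x = ∑ n ∈ Finset.Icc n₀ n₁, c n * exp (2 * Real.pi * I * n * x / t)

/-- ZLO: slices from below (`δ < 1` bounds the phase error on the slice).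
PROOF. As FLO: `∫ (|h| - Re (h φ)) ≥ (1-δ) ∫ |h| - |∫ h e^{-2πi j s}|` if `|φ - c e^{-2πi j s}| ≤ δ`, and `∫ |h| ≥ |∫ h e^{-2πi n s}|`. -/
def ZLO_stmt : Prop := ∀ (h φ : ℝ → ℂ) (c : ℂ) (j n : ℤ) (δ : ℝ), Continuous h → Continuous φ → ‖c‖ = 1 → 0 ≤ δ → δ < 1 →
  (∀ s : ℝ, ‖φ s - c * exp (-(2 * Real.pi * I * j * s))‖ ≤ δ) →
  (1 - δ) * ‖∫ s in (0 : ℝ)..1, h s * exp (-(2 * Real.pi * I * n * s))‖ - ‖∫ s in (0 : ℝ)..1, h s * exp (-(2 * Real.pi * I * j * s))‖ ≤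
    ∫ s in (0 : ℝ)..1, (‖h s‖ - (h s * φ s).re)

/-- ZSL: slices of the energy.
PROOF. Fubini as in V3.PSL (helper..): for `|η| > Y₁ ≥ Y₀` the function `En b (qq b V) (t (s + iη))` is continuous in `(s,η)` (ZRA, ZEQ: no zeros of `N Q` far out), `ε → 0`. -/
def ZSL_stmt : Prop := ∀ (Γ : Set ℂ) (A : ℂ → ℂ) (L : ℕ) (a r : Fin L → ℂ) (b V : ℂ → ℂ) (t : ℂ),
  Lim Γ A L a r b V → t ≠ 0 → Γ = V3.ZL t → (∀ c ∈ Γ, A c = 1) →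
  ∃ C Y₁ : ℝ, 0 < Y₁ ∧ ∀ (η₁ η₂ κ : ℝ), η₁ < η₂ → 0 ≤ κ → (Y₁ ≤ η₁ ∨ η₂ ≤ -Y₁) →
    (∀ η ∈ Ioo η₁ η₂, κ ≤ ∫ s in (0 : ℝ)..1, En b (qq b V) (t * (s + η * I))) → κ * (η₂ - η₁) ≤ C

/-- ZQT: `h = Q(u)² q` is a trigonometric polynomial with frequencies in `[0, 2L]`.
PROOF. `h` (formula of ZEQ) is entire and periodic (ZPE). ZTR (`c n`), ZPH for `M = N Q`, ZEQ, ZLO, ZSL. Upper end `η → ∞`, `u → 0`, `|Q(u)|² ≤ 4 |Q(0)|²`: if `c n ≠ 0`, `n < 0`: `∫ En ≥ (4|Q(0)|²)⁻¹ ((1-δ) |c n| e^{-2πnη} - |c k₀| e^{-2πk₀η}) ≥ κ > 0`, `k₀ ≥ 0`: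
contradiction to ZSL with `η₂ → ∞`. Lower end `η → -∞`, `|Q(u)|² ≤ 4 |u|^{2L}`: if `c n ≠ 0`, `n > 2L`: `∫ En ≥ (1/4) |u|^{-2L} ((1-δ) |c n| |u|^n - |c m| |u|^m) ≥ κ > 0`, `m = natDegree (N Q) ≤ 2L < n`: contradiction. -/
def ZQT_stmt : Prop := ∀ (Γ : Set ℂ) (A : ℂ → ℂ) (L : ℕ) (a r : Fin L → ℂ) (b V : ℂ → ℂ) (t : ℂ) (N Q : Polynomial ℂ),
  Lim Γ A L a r b V → t ≠ 0 → Γ = V3.ZL t → (∀ c ∈ Γ, A c = 1) → N ≠ 0 → N.natDegree ≤ L → Q.natDegree = L → Q.Monic →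
  Q.eval 0 ≠ 0 → (∀ x, x ∈ Pl Γ A L a ↔ Q.eval (exp (2 * Real.pi * I * x / t)) = 0) →
  (∀ x ∉ Pl Γ A L a, b x = N.eval (exp (2 * Real.pi * I * x / t)) / Q.eval (exp (2 * Real.pi * I * x / t))) →
  ∃ H : Polynomial ℂ, H.natDegree ≤ 2 * L ∧ ∀ x, 2 * Real.pi * I / t * V x *
      (Polynomial.X * (N.derivative * Q - N * Q.derivative)).eval (exp (2 * Real.pi * I * x / t)) +
      2 * deriv V x * (N * Q).eval (exp (2 * Real.pi * I * x / t)) = H.eval (exp (2 * Real.pi * I * x / t))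

/-- ZOD: the differential equation in `u`, regular singular at both ends.
PROOF. For `|η|` large: `|u (N' Q - N Q')(u)/(N Q)(u)| ≤ C` (order of vanishing at `0` of the numerator `≥` that of `N Q`, as `Q 0 ≠ 0`; degree of the numerator `≤` that of `N Q`), `|H(u)/(N Q)(u)| ≤ C e^{C|η|}`. So
`Y(η) = V(t(s+iη))` has `|Y'| ≤ C |Y| + C e^{C|η|}` for `|η| ≥ Y₁`; Gronwall: `|V(t(s+iη))| ≤ C' e^{C'|η|}` for `s ∈ [0,1]`. ZTR: `|c n| e^{-2πnη} ≤ C' e^{C'|η|}`: `c n = 0` for `2π |n| > C'`. -/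
def ZOD_stmt : Prop := ∀ (V : ℂ → ℂ) (t : ℂ) (N Q H : Polynomial ℂ), Differentiable ℂ V → t ≠ 0 → (∀ x, V (x + t) = V x) →
  N ≠ 0 → Q ≠ 0 → Q.eval 0 ≠ 0 → (∀ x, 2 * Real.pi * I / t * V x *
      (Polynomial.X * (N.derivative * Q - N * Q.derivative)).eval (exp (2 * Real.pi * I * x / t)) +
      2 * deriv V x * (N * Q).eval (exp (2 * Real.pi * I * x / t)) = H.eval (exp (2 * Real.pi * I * x / t))) →
  ∃ (n₀ : ℕ) (c : ℤ → ℂ), ∀ x, V x = ∑ n ∈ Finset.Icc (-(n₀ : ℤ)) n₀, c n * exp (2 * Real.pi * I * n * x / t)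

/-- ZDG: the degree of a trigonometric solution.
PROOF. Write `V x = u^{-n₀} W(u)`, `W` a polynomial: the equation becomes `X W·(N'Q - NQ') + 2 N Q (X W' - n₀ W) = (t/2πi) X^{n₀} H` (polynomial identity: true for all `u ≠ 0`). If `c k ≠ 0` with `k ≥ 1` maximal: the coefficient of
`X^{n₀+k+dN+dQ}` of the left side is `(dN - dQ + 2k) · c k · (leading coefficients)`; if it is not `0` then `k + dN + dQ ≤ 2L`, `dQ = L`: `k ≤ L`; if it is `0`: `2k = L - dN`. If `c (-k) ≠ 0` with `k ≥ 1` maximal and `k₀` the order of `N` at `0`: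
the coefficient of `X^{n₀-k+k₀}` is `(k₀ - 2k) · c (-k) · ...`; if it is not `0` then `k₀ - k ≥ 0`, `k ≤ k₀ ≤ dN ≤ L`; otherwise `2k = k₀`. -/
def ZDG_stmt : Prop := ∀ (V : ℂ → ℂ) (t : ℂ) (L n₀ : ℕ) (c : ℤ → ℂ) (N Q H : Polynomial ℂ), t ≠ 0 → N ≠ 0 → N.natDegree ≤ L →
  Q.natDegree = L → Q.eval 0 ≠ 0 → H.natDegree ≤ 2 * L →
  (∀ x, V x = ∑ n ∈ Finset.Icc (-(n₀ : ℤ)) n₀, c n * exp (2 * Real.pi * I * n * x / t)) → (∀ x, 2 * Real.pi * I / t * V x *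
      (Polynomial.X * (N.derivative * Q - N * Q.derivative)).eval (exp (2 * Real.pi * I * x / t)) +
      2 * deriv V x * (N * Q).eval (exp (2 * Real.pi * I * x / t)) = H.eval (exp (2 * Real.pi * I * x / t))) →
  ∃ c' : ℤ → ℂ, ∀ x, V x = ∑ n ∈ Finset.Icc (-(L : ℤ)) L, c' n * exp (2 * Real.pi * I * n * x / t)

/-- ZEN: end of case (Z).
PROOF. ZRA, ZQT, ZPE, ZOD, ZDG. -/
def ZEN_stmt : Prop := ∀ (Γ : Set ℂ) (A : ℂ → ℂ) (L : ℕ) (a r : Fin L → ℂ) (b V : ℂ → ℂ) (t : ℂ),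
  Lim Γ A L a r b V → t ≠ 0 → Γ = V3.ZL t → (∀ c ∈ Γ, A c = 1) →
  ∃ c : ℤ → ℂ, ∀ x, V x = ∑ n ∈ Finset.Icc (-(L : ℤ)) L, c n * exp (2 * Real.pi * I * n * x / t)

/-- GRW: LEMMA L.
PROOF. GTR, FEN, ZEN. -/
def GRW_stmt : Prop := ∀ (Γ : Set ℂ) (A : ℂ → ℂ) (L : ℕ) (a r : Fin L → ℂ) (b V : ℂ → ℂ), Lim Γ A L a r b V →
  (∃ α β : ℂ, ∀ x, V x = α + β * x) ∨
  (Γ.Finite ∧ ∃ P : Polynomial ℂ, P.natDegree ≤ max 1 (L * Γ.ncard) ∧ ∀ x, V x = P.eval x) ∨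
  (∃ t : ℂ, t ≠ 0 ∧ Γ = V3.ZL t ∧ (∀ c ∈ Γ, A c = 1) ∧
    ∃ c : ℤ → ℂ, ∀ x, V x = ∑ n ∈ Finset.Icc (-(L : ℤ)) L, c n * exp (2 * Real.pi * I * n * x / t))

end P2N
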